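import Pool.Agent.T6.H16.TW.Main

set_option autoImplicit false

/-! An explicit family of towers. -/

namespace Pool.Agent.T6.H16.TW

open MvPolynomial
open Pool.Agent.H628R4.TZ Pool.Agent.H628R4.TP Pool.Agent.W425.SM Pool.Agent.W425.SH
open Pool.Agent.Y229.PS
open Pool.Agent.Y229.RE (unstab emb yv zv xv emb_l emb_r)

variable {m n : ℕ}

/-- the exponents of `γ z ^ c + ∑ δ_j x_{m+j} ^ D_j + y (z - ∑ α_i x_i ^ A_i)` -/
def vEx (A : Fin m → ℕ) (D : Fin n → ℕ) (c : ℕ) :
    Fin (m + n + 2) → Fin ((m + n) + (1 + 1)) → ℕ :=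
  Fin.append (Fin.append
    (fun i => Pi.single (xv 1 (Fin.castAdd n i)) (A i) + Pi.single (yv (m + n) 0) 1)
    (fun j => Pi.single (xv 1 (Fin.natAdd m j)) (D j)))
    ![Pi.single (yv (m + n) 0) 1 + Pi.single (zv (m + n) 0) 1, Pi.single (zv (m + n) 0) c]

/-- the coefficients -/
def aEx (α : Fin m → ℂ) (δ : Fin n → ℂ) (γ : ℂ) : Fin (m + n + 2) → ℂ :=
  Fin.append (Fin.append (fun i => - α i) δ) ![1, γ]

lemma prod_single {M : ℕ} (p : Fin M) (s : ℕ) :
    (∏ i, (X i : MvPolynomial (Fin M) ℂ) ^ (Pi.single p s : Fin M → ℕ) i) = X p ^ s := by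
  rw [Finset.prod_eq_single p]
  · rw [Pi.single_eq_same]
  · intro i _ hi
    rw [Pi.single_eq_of_ne hi, pow_zero]
  · intro h
    exact absurd (Finset.mem_univ p) h

lemma prod_single2 {M : ℕ} (p q : Fin M) (s t : ℕ) :
    (∏ i, (X i : MvPolynomial (Fin M) ℂ) ^
      (Pi.single p s + Pi.single q t : Fin M → ℕ) i) = X p ^ s * X q ^ t := by
  rw [← prod_single p s, ← prod_single q t, ← Finset.prod_mul_distrib]
  refine Finset.prod_congr rfl fun i _ => ?_
  rw [Pi.add_apply, pow_add]

/-- `∑ α_i x_i ^ A_i` -/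
noncomputable def qEx (A : Fin m → ℕ) (α : Fin m → ℂ) (n : ℕ) :
    Fin 1 → MvPolynomial (Fin ((m + n) + 1)) ℂ :=
  fun _ => ∑ i, C (α i) * X (Fin.castAdd 1 (Fin.castAdd n i)) ^ A i

/-- `γ z ^ c + ∑ δ_j x_{m+j} ^ D_j` -/
noncomputable def pEx (m : ℕ) (D : Fin n → ℕ) (c : ℕ) (δ : Fin n → ℂ) (γ : ℂ) :
    MvPolynomial (Fin ((m + n) + 1)) ℂ :=
  C γ * X (Fin.natAdd (m + n) 0) ^ c + ∑ j, C (δ j) * X (Fin.castAdd 1 (Fin.natAdd m j)) ^ D j

lemma ex_eq (A : Fin m → ℕ) (D : Fin n → ℕ) (c : ℕ) (α : Fin m → ℂ) (δ : Fin n → ℂ) (γ : ℂ) :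
    cayG (towG (pEx m D c δ γ) (qEx A α n)) = sparse (vEx A D c) (aEx α δ γ) := by
  unfold cayG towG sparse
  rw [Fin.cons_zero, Fin.sum_univ_one, Fin.cons_succ, Fin.sum_univ_add, Fin.sum_univ_add,
    Fin.sum_univ_two]
  unfold vEx aEx pEx qEx
  simp only [Fin.append_left, Fin.append_right, prod_single, prod_single2, Matrix.cons_val_zero,
    Matrix.cons_val_one, map_add, map_sub, map_mul, map_pow, map_sum, rename_X, rename_C, emb_r,
    emb_l, map_one, map_neg, one_mul, pow_one]
  simp only [mul_sub, Finset.mul_sum, neg_mul, Finset.sum_neg_distrib]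
  have h2 : ∑ i, X (yv (m + n) 0) * (C (α i) * X (xv 1 (Fin.castAdd n i)) ^ A i) =
      ∑ i, C (α i) * (X (xv 1 (Fin.castAdd n i)) ^ A i * X (yv (m + n) 0)) :=
    Finset.sum_congr rfl fun i _ => by ring
  rw [h2]
  ring

lemma xv_ne_y (i : Fin (m + n)) : xv 1 i ≠ yv (m + n) 0 := by
  intro h
  have := congrArg Fin.val h
  simp [xv, yv] at this
  omega

lemma xv_ne_z (i : Fin (m + n)) : xv 1 i ≠ zv (m + n) 0 := by
  intro h
  have := congrArg Fin.val h
  simp [xv, zv] at this
  omega

lemma y_ne_z : yv (m + n) (0 : Fin 1) ≠ zv (m + n) 0 := by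
  intro h
  have := congrArg Fin.val h
  simp [yv, zv] at this

lemma xv_inj {N k : ℕ} : Function.Injective (xv k : Fin N → Fin (N + (k + k))) :=
  Fin.castAdd_injective _ _

lemma ex_lin (A : Fin m → ℕ) (D : Fin n → ℕ) (c : ℕ) (hA : ∀ i, A i ≠ 0) (hD : ∀ j, D j ≠ 0)
    (hc : c ≠ 0) (w : Fin (m + n + 2) → ℚ)
    (hw : ∑ j, w j • (fun i => (vEx A D c j i : ℚ) : Fin ((m + n) + (1 + 1)) → ℚ) = 0) :
    ∀ j, w j = 0 := by
  have h1 : ∀ i, ∑ j, w j * (vEx A D c j i : ℚ) = 0 := by
    intro i
    have h2 := congrFun hw i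
    rw [Finset.sum_apply] at h2
    simpa only [Pi.smul_apply, smul_eq_mul, Pi.zero_apply] using h2
  have hx : ∀ i : Fin m, w (Fin.castAdd 2 (Fin.castAdd n i)) = 0 := by
    intro i
    have h2 := h1 (xv 1 (Fin.castAdd n i))
    rw [Fin.sum_univ_add, Fin.sum_univ_add, Fin.sum_univ_two] at h2
    unfold vEx at h2
    simp only [Fin.append_left, Fin.append_right, Matrix.cons_val_zero, Matrix.cons_val_one,
      Pi.add_apply] at h2
    rw [Finset.sum_eq_single i] at h2
    · rw [Pi.single_eq_same, Pi.single_eq_of_ne (xv_ne_y _), Finset.sum_eq_zero,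
        Pi.single_eq_of_ne (xv_ne_z _), Pi.single_eq_of_ne (xv_ne_z _)] at h2
      · simp only [Nat.cast_add, Nat.cast_zero, add_zero, mul_zero, mul_eq_zero,
          Nat.cast_eq_zero] at h2
        exact h2.resolve_right (hA i)
      · intro j _
        rw [Pi.single_eq_of_ne, Nat.cast_zero, mul_zero]
        intro h
        have := congrArg Fin.val (xv_inj h)
        simp at this
        omega
    · intro j _ hj
      rw [Pi.single_eq_of_ne, Pi.single_eq_of_ne (xv_ne_y _)]
      · simp
      · intro h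
        exact hj (Fin.castAdd_injective _ _ (xv_inj h)).symm
    · intro h
      exact absurd (Finset.mem_univ i) h
  have hd : ∀ j : Fin n, w (Fin.castAdd 2 (Fin.natAdd m j)) = 0 := by
    intro j
    have h2 := h1 (xv 1 (Fin.natAdd m j))
    rw [Fin.sum_univ_add, Fin.sum_univ_add, Fin.sum_univ_two] at h2
    unfold vEx at h2
    simp only [Fin.append_left, Fin.append_right, Matrix.cons_val_zero, Matrix.cons_val_one,
      Pi.add_apply, hx, zero_mul, Finset.sum_const_zero, zero_add] at h2
    rw [Finset.sum_eq_single j] at h2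
    · rw [Pi.single_eq_same, Pi.single_eq_of_ne (xv_ne_y _), Pi.single_eq_of_ne (xv_ne_z _),
        Pi.single_eq_of_ne (xv_ne_z _)] at h2
      simp only [Nat.cast_zero, add_zero, mul_zero, mul_eq_zero, Nat.cast_eq_zero] at h2
      exact h2.resolve_right (hD j)
    · intro i _ hi
      rw [Pi.single_eq_of_ne, Nat.cast_zero, mul_zero]
      intro h
      have h3 := xv_inj h
      have h4 := congrArg Fin.val h3
      simp at h4
      exact hi (Fin.ext h4).symm
    · intro h
      exact absurd (Finset.mem_univ j) h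
  have hy : w (Fin.natAdd (m + n) 0) = 0 := by
    have h2 := h1 (yv (m + n) 0)
    rw [Fin.sum_univ_add, Fin.sum_univ_add, Fin.sum_univ_two] at h2
    unfold vEx at h2
    simp only [Fin.append_right, Matrix.cons_val_zero, Matrix.cons_val_one,
      Pi.add_apply, hx, hd, zero_mul, Finset.sum_const_zero, zero_add] at h2
    rw [Pi.single_eq_same, Pi.single_eq_of_ne y_ne_z, Pi.single_eq_of_ne y_ne_z] at h2
    simpa using h2
  have hz : w (Fin.natAdd (m + n) 1) = 0 := by
    have h2 := h1 (zv (m + n) 0)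
    rw [Fin.sum_univ_add, Fin.sum_univ_add, Fin.sum_univ_two] at h2
    unfold vEx at h2
    simp only [Fin.append_right, Matrix.cons_val_zero, Matrix.cons_val_one,
      Pi.add_apply, hx, hd, hy, zero_mul, Finset.sum_const_zero, zero_add] at h2
    rw [Pi.single_eq_same] at h2
    exact (mul_eq_zero.1 h2).resolve_right (by exact_mod_cast hc)
  intro j
  refine Fin.addCases (fun j => ?_) (fun j => ?_) j
  · refine Fin.addCases (fun j => hx j) (fun j => hd j) j
  · fin_cases j
    · exact hy
    · exact hz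

lemma ex_indep (A : Fin m → ℕ) (D : Fin n → ℕ) (c : ℕ) (hA : ∀ i, A i ≠ 0) (hD : ∀ j, D j ≠ 0)
    (hc : c ≠ 0) :
    AffineIndependent ℚ (fun j => (fun i => (vEx A D c j i : ℚ) :
      Fin ((m + n) + (1 + 1)) → ℚ)) := by
  have key : LinearIndependent ℚ (fun j => (fun i => (vEx A D c j i : ℚ) :
      Fin ((m + n) + (1 + 1)) → ℚ)) := by
    rw [Fintype.linearIndependent_iff]
    exact ex_lin A D c hA hD hc
  exact key.affineIndependent

lemma ex_ne (A : Fin m → ℕ) (D : Fin n → ℕ) (c : ℕ) (hD : ∀ j, D j ≠ 0)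
    (hc : c ≠ 0) (j) : vEx A D c j ≠ 0 := by
  refine Fin.addCases (fun j => ?_) (fun j => ?_) j
  · refine Fin.addCases (fun j h => ?_) (fun j h => ?_) j
    · have := congrFun h (yv (m + n) 0)
      unfold vEx at this
      rw [Fin.append_left, Fin.append_left, Pi.add_apply, Pi.single_eq_same] at this
      simp at this
    · have := congrFun h (xv 1 (Fin.natAdd m j))
      unfold vEx at this
      rw [Fin.append_left, Fin.append_right, Pi.single_eq_same] at this
      exact hD j this
  · fin_cases j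
    · intro h
      have := congrFun h (yv (m + n) 0)
      unfold vEx at this
      simp only [Fin.zero_eta, Fin.append_right, Matrix.cons_val_zero, Pi.add_apply,
        Pi.single_eq_same, Pi.zero_apply] at this
      omega
    · intro h
      have := congrFun h (zv (m + n) 0)
      unfold vEx at this
      simp only [Fin.mk_one, Fin.append_right, Matrix.cons_val_one, Matrix.cons_val_fin_one,
        Pi.single_eq_same, Pi.zero_apply] at this
      exact hc this

lemma ex_a (α : Fin m → ℂ) (δ : Fin n → ℂ) (γ : ℂ) (hα : ∀ i, α i ≠ 0) (hδ : ∀ j, δ j ≠ 0)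
    (hγ : γ ≠ 0) (j) : aEx α δ γ j ≠ 0 := by
  unfold aEx
  refine Fin.addCases (fun j => ?_) (fun j => ?_) j
  · refine Fin.addCases (fun j => ?_) (fun j => ?_) j
    · rw [Fin.append_left, Fin.append_left]
      exact neg_ne_zero.2 (hα j)
    · rw [Fin.append_left, Fin.append_right]
      exact hδ j
  · rw [Fin.append_right]
    fin_cases j
    · exact one_ne_zero
    · exact hγ

/-- `f = γ (∑ α_i x_i ^ A_i) ^ c + ∑ δ_j x_{m+j} ^ D_j` -/
noncomputable def fEx (A : Fin m → ℕ) (D : Fin n → ℕ) (c : ℕ) (α : Fin m → ℂ) (δ : Fin n → ℂ)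
    (γ : ℂ) : MvPolynomial (Fin (m + n)) ℂ :=
  C γ * (∑ i, C (α i) * X (Fin.castAdd n i) ^ A i) ^ c + ∑ j, C (δ j) * X (Fin.natAdd m j) ^ D j

/-- **An explicit family.** -/
theorem ex_strong (hmn : 0 < m + n) (A : Fin m → ℕ) (D : Fin n → ℕ) (c : ℕ) (α : Fin m → ℂ)
    (δ : Fin n → ℂ) (γ : ℂ) (hA : ∀ i, A i ≠ 0) (hD : ∀ j, D j ≠ 0) (hc : 2 ≤ c)
    (hα : ∀ i, α i ≠ 0) (hδ : ∀ j, δ j ≠ 0) (hγ : γ ≠ 0) (b : Polynomial ℂ)
    (hb : IsFormalBFunction (fEx A D c α δ γ : MvPowerSeries (Fin (m + n)) ℂ) b)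
    (R : SmoothFan ((m + n) + (1 + 1))) (hR : Principal (vEx A D c) R) :
    ∃ P : Polynomial ℂ, algebraMap (Polynomial ℂ) (RatFunc ℂ)
      (b * (Polynomial.X - Polynomial.C 1)) *
      unstab 1 1 (Pool.Agent.W425.SL.topZetaSparseLocal (vEx A D c) R) =
        algebraMap (Polynomial ℂ) (RatFunc ℂ) P := by
  have hc0 : c ≠ 0 := by omega
  have key := tower_sparse (N := m + n) (k := 1) (r := m + n + 2) (by omega) (pEx m D c δ γ)
    (qEx A α n) ?_ ?_ ?_ ?_ (fun _ => ∑ i, C (α i) * X (Fin.castAdd n i) ^ A i) ?_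
    (fEx A D c α δ γ) ?_ ?_ (vEx A D c) (aEx α δ γ) 0 (ex_indep A D c hA hD hc0)
    (ex_ne A D c hD hc0) (ex_a α δ γ hα hδ hγ) (Or.inl rfl) (by
      intro w hw
      simp at hw) (by rw [ex_eq, add_zero]) b hb R hR
  · simpa using key
  · unfold pEx
    rw [map_add, map_mul, map_pow, constantCoeff_X, zero_pow hc0, mul_zero, zero_add, map_sum]
    refine Finset.sum_eq_zero fun j _ => ?_
    rw [map_mul, map_pow, constantCoeff_X, zero_pow (hD j), mul_zero]
  · intro i j hj
    exfalso
    unfold qEx at hj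
    have h1 := MvPolynomial.vars_sum_subset _ _ hj
    rw [Finset.mem_biUnion] at h1
    obtain ⟨i', -, h2⟩ := h1
    have h3 := MvPolynomial.vars_mul _ _ h2
    rw [vars_C, Finset.empty_union] at h3
    have h4 := MvPolynomial.vars_pow _ _ h3
    rw [vars_X, Finset.mem_singleton] at h4
    have h5 := congrArg Fin.val h4
    simp at h5
    omega
  · intro i
    unfold qEx
    rw [map_sum]
    refine Finset.sum_eq_zero fun j _ => ?_
    rw [map_mul, map_pow, constantCoeff_X, zero_pow (hA j), mul_zero]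
  · intro j
    have hj : j = 0 := Subsingleton.elim _ _
    subst hj
    unfold pEx
    rw [coeff_add, coeff_C_mul, coeff_X_pow, if_neg, mul_zero, zero_add, coeff_sum]
    · refine Finset.sum_eq_zero fun j _ => ?_
      rw [coeff_C_mul, coeff_X_pow, if_neg, mul_zero]
      intro h
      have h1 := DFunLike.congr_fun h (Fin.castAdd 1 (Fin.natAdd m j))
      rw [Finsupp.single_eq_same, Finsupp.single_eq_of_ne] at h1
      · exact hD j h1
      · intro h2
        have := congrArg Fin.val h2
        simp at this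
        omega
    · intro h
      have h1 := DFunLike.congr_fun h (Fin.natAdd (m + n) 0)
      rw [Finsupp.single_eq_same, Finsupp.single_eq_same] at h1
      omega
  · intro i
    unfold sb qEx
    rw [map_sum]
    refine Finset.sum_congr rfl fun j _ => ?_
    rw [map_mul, map_pow, aeval_X, Fin.append_left, aeval_C, MvPolynomial.algebraMap_eq]
  · unfold sb pEx fEx
    rw [map_add, map_mul, map_pow, aeval_X, Fin.append_right, map_sum, aeval_C,
      MvPolynomial.algebraMap_eq]
    congr 1
    refine Finset.sum_congr rfl fun j _ => ?_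
    rw [map_mul, map_pow, aeval_X, Fin.append_left, aeval_C, MvPolynomial.algebraMap_eq]
  · intro h0
    rcases Nat.eq_zero_or_pos n with hn | hn
    · have hm : 0 < m := by omega
      have h1 := congrArg (eval (Pi.single (Fin.castAdd n (⟨0, hm⟩ : Fin m)) 1 :
        Fin (m + n) → ℂ)) h0
      unfold fEx at h1
      simp only [map_add, map_mul, map_pow, map_sum, eval_C, eval_X, map_zero] at h1
      rw [Finset.sum_eq_single (⟨0, hm⟩ : Fin m), Pi.single_eq_same, one_pow, mul_one,
        Finset.sum_eq_zero, add_zero] at h1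
      · exact mul_ne_zero hγ (pow_ne_zero _ (hα _)) h1
      · intro j _
        exact absurd j.2 (by omega)
      · intro i _ hi
        rw [Pi.single_eq_of_ne, zero_pow (hA i), mul_zero]
        intro h
        exact hi (Fin.castAdd_injective _ _ h)
      · intro h
        exact absurd (Finset.mem_univ _) h
    · have h1 := congrArg (eval (Pi.single (Fin.natAdd m (⟨0, hn⟩ : Fin n)) 1 :
        Fin (m + n) → ℂ)) h0
      unfold fEx at h1
      simp only [map_add, map_mul, map_pow, map_sum, eval_C, eval_X, map_zero] at h1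
      rw [Finset.sum_eq_zero, zero_pow hc0, mul_zero, zero_add,
        Finset.sum_eq_single (⟨0, hn⟩ : Fin n), Pi.single_eq_same, one_pow, mul_one] at h1
      · exact hδ _ h1
      · intro j _ hj
        rw [Pi.single_eq_of_ne, zero_pow (hD j), mul_zero]
        intro h
        have := congrArg Fin.val h
        simp at this
        exact hj (Fin.ext (by simpa using this))
      · intro h
        exact absurd (Finset.mem_univ _) h
      · intro i _
        rw [Pi.single_eq_of_ne, zero_pow (hA i), mul_zero]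
        intro h
        have := congrArg Fin.val h
        simp at this
        omega

end Pool.Agent.T6.H16.TW
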