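import Pool.Agent.Y229.PS.Main
import Pool.Agent.Y229.PS.Emb
import Pool.Agent.Y229.PS.Comp
import Pool.Agent.W425.SH.Final

set_option autoImplicit false

/-! Compositions with few monomials: the local strong monodromy conjecture. -/

namespace Pool.Agent.T6.H16.TW

open Pool.Agent.H628R4.TZ Pool.Agent.H628R4.TP Pool.Agent.W425.SM Pool.Agent.W425.SH
open Pool.Agent.Y229.PS
open Pool.Agent.Y229.RE (unstab emb yv zv)
open Polynomial (X C)

variable {N k r : ℕ}

/-- the case where `f + ∑ y_i z_i` becomes sparse with higher order terms -/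
theorem sparse_strong (hr : 1 ≤ r) (v : Fin r → Fin (N + (k + k)) → ℕ) (a : Fin r → ℂ)
    (h : MvPolynomial (Fin (N + (k + k))) ℂ)
    (hv : AffineIndependent ℚ (fun j => (fun i => (v j i : ℚ) : Fin (N + (k + k)) → ℚ)))
    (hv0 : ∀ j, v j ≠ 0) (ha : ∀ j, a j ≠ 0) (h1 : h = 0 ∨ Higher v h) (h2 : Above v h)
    (f : MvPowerSeries (Fin N) ℂ) (hf0 : f ≠ 0) (hf : MvPowerSeries.constantCoeff f = 0)
    (hB : Becomes f k (sparse v a + h)) (b : Polynomial ℂ) (hb : IsFormalBFunction f b)
    (R : SmoothFan (N + (k + k))) (hR : Principal v R) :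
    ∃ P : Polynomial ℂ, algebraMap (Polynomial ℂ) (RatFunc ℂ) (b * (X - C (k : ℂ))) *
      unstab k 1 (Pool.Agent.W425.SL.topZetaSparseLocal v R) =
        algebraMap (Polynomial ℂ) (RatFunc ℂ) P := by
  obtain ⟨hb1, h3⟩ := becomes_local hf0 hf hb hB
  obtain ⟨c, rfl⟩ := exists_factor hb1
  obtain ⟨P, hP⟩ := final' hr v a h hv hv0 ha h1 h2 R hR _ (h3 c rfl)
  exact unstab_poly hP

/-- `G_0 + ∑ y_i G_i` -/
noncomputable def cayG (G : Fin (k + 1) → MvPolynomial (Fin (N + k)) ℂ) :
    MvPolynomial (Fin (N + (k + k))) ℂ :=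
  MvPolynomial.rename emb (G 0) +
    ∑ i : Fin k, MvPolynomial.X (yv N i) * MvPolynomial.rename emb (G i.succ)

open MvPowerSeries in
/-- The coefficients `q_i` in `G_0 = f + ∑ q_i G_i` vanish at the origin if `G_0` has no linear
terms in `z`. -/
lemma q_zero (G : Fin (k + 1) → MvPolynomial (Fin (N + k)) ℂ)
    (hG0 : ∀ i : Fin k, MvPolynomial.constantCoeff (G i.succ) = 0)
    (hlin : ∀ j : Fin k, MvPolynomial.coeff (Finsupp.single (Fin.natAdd N j) 1) (G 0) = 0)
    (hdet : (Matrix.of fun i j : Fin k => MvPolynomial.coeff (Finsupp.single (Fin.natAdd N j) 1)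
      (G i.succ)).det ≠ 0)
    (f : MvPowerSeries (Fin N) ℂ) (q : Fin k → MvPowerSeries (Fin (N + k)) ℂ)
    (hF : (G 0 : MvPowerSeries (Fin (N + k)) ℂ) = rename (Fin.castAdd k) f +
      ∑ i, q i * (G i.succ : MvPowerSeries (Fin (N + k)) ℂ)) (i : Fin k) :
    constantCoeff (q i) = 0 := by
  have h1 : ∀ j : Fin k, ∑ i, constantCoeff (q i) *
      MvPolynomial.coeff (Finsupp.single (Fin.natAdd N j) 1) (G i.succ) = 0 := by
    intro j
    have h2 := congrArg (coeff (Finsupp.single (Fin.natAdd N j) 1)) hF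
    rw [MvPolynomial.coeff_coe, hlin, lin_eq, map_add, map_add, pd_rename_ne (fun i h => by
      have := congrArg Fin.val h
      simp at this
      have := i.2
      omega), map_zero, zero_add, map_sum, map_sum] at h2
    rw [h2]
    refine Finset.sum_congr rfl fun i _ => ?_
    rw [Derivation.leibniz, map_add, smul_eq_mul, smul_eq_mul, map_mul, map_mul, const_coe, hG0,
      zero_mul, add_zero, ← lin_eq, MvPolynomial.coeff_coe]
  have h3 := Matrix.eq_zero_of_vecMul_eq_zero hdet (v := fun i => constantCoeff (q i)) (by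
    funext j
    rw [Matrix.vecMul_eq_sum]
    simp only [Finset.sum_apply, Pi.smul_apply, Matrix.of_apply, smul_eq_mul, Pi.zero_apply]
    exact h1 j)
  exact congrFun h3 i

/-! ### Towers -/

open MvPolynomial

/-- `q_i` involves only the variables `x` and `z_j` with `j < i`. -/
def Tri (q : Fin k → MvPolynomial (Fin (N + k)) ℂ) : Prop :=
  ∀ i j : Fin k, Fin.natAdd N j ∈ (q i).vars → j < i

/-- `Φ(x, z)` and the `z_i - q_i(x, z)` -/
noncomputable def towG (Φ : MvPolynomial (Fin (N + k)) ℂ)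
    (q : Fin k → MvPolynomial (Fin (N + k)) ℂ) : Fin (k + 1) → MvPolynomial (Fin (N + k)) ℂ :=
  Fin.cons Φ (fun i => X (Fin.natAdd N i) - q i)

/-- substitution of `g` for `z` -/
noncomputable def sb (g : Fin k → MvPolynomial (Fin N) ℂ) :
    MvPolynomial (Fin (N + k)) ℂ →ₐ[ℂ] MvPolynomial (Fin N) ℂ :=
  aeval (Fin.append X g)

noncomputable def psi (g : Fin k → MvPolynomial (Fin N) ℂ) :
    MvPolynomial (Fin (N + k)) ℂ →ₐ[ℂ] MvPolynomial (Fin (N + k)) ℂ :=
  (rename (Fin.castAdd k)).comp (sb g)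

lemma psi_x (g : Fin k → MvPolynomial (Fin N) ℂ) (i : Fin N) :
    psi g (X (Fin.castAdd k i)) = X (Fin.castAdd k i) := by
  unfold psi sb
  rw [AlgHom.comp_apply, aeval_X, Fin.append_left, rename_X]

lemma psi_z (g : Fin k → MvPolynomial (Fin N) ℂ) (i : Fin k) :
    psi g (X (Fin.natAdd N i)) = rename (Fin.castAdd k) (g i) := by
  unfold psi sb
  rw [AlgHom.comp_apply, aeval_X, Fin.append_right]

lemma mem_of_vars {g : Fin k → MvPolynomial (Fin N) ℂ} {J : Ideal (MvPolynomial (Fin (N + k)) ℂ)}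
    {P : MvPolynomial (Fin (N + k)) ℂ}
    (h : ∀ i : Fin k, Fin.natAdd N i ∈ P.vars →
      X (Fin.natAdd N i) - psi g (X (Fin.natAdd N i)) ∈ J) :
    P - psi g P ∈ J := by
  rw [← Ideal.Quotient.eq]
  refine MvPolynomial.hom_congr_vars (f₁ := Ideal.Quotient.mk J)
    (f₂ := (Ideal.Quotient.mk J).comp (psi g : MvPolynomial (Fin (N + k)) ℂ →+* _))
    (p₁ := P) (p₂ := P) ?_ ?_ rfl
  · ext c
    simp only [RingHom.comp_apply, RingHom.coe_coe]
    rw [← MvPolynomial.algebraMap_eq, AlgHom.commutes]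
  · intro i hi _
    simp only [RingHom.comp_apply, RingHom.coe_coe]
    rw [Ideal.Quotient.eq]
    revert hi
    refine Fin.addCases (fun i hi => ?_) (fun i hi => ?_) i
    · rw [psi_x, sub_self]
      exact J.zero_mem
    · exact h i hi

lemma tow_mem {q : Fin k → MvPolynomial (Fin (N + k)) ℂ} (hq : Tri q)
    {g : Fin k → MvPolynomial (Fin N) ℂ} (hg : ∀ i, g i = sb g (q i)) (i : Fin k) :
    X (Fin.natAdd N i) - psi g (X (Fin.natAdd N i)) ∈
      Ideal.span (Set.range fun i : Fin k => (X (Fin.natAdd N i) - q i)) := by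
  induction i using Fin.strong_induction_on with
  | _ i ih =>
    have h1 : q i - psi g (q i) ∈
        Ideal.span (Set.range fun i : Fin k => (X (Fin.natAdd N i) - q i)) :=
      mem_of_vars fun j hj => ih j (hq i j hj)
    have h2 : psi g (X (Fin.natAdd N i)) = psi g (q i) := by
      rw [psi_z]
      conv_lhs => rw [hg i]
      rfl
    rw [h2]
    have h3 : (X (Fin.natAdd N i) : MvPolynomial (Fin (N + k)) ℂ) - psi g (q i) =
        (X (Fin.natAdd N i) - q i) + (q i - psi g (q i)) := by ring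
    rw [h3]
    exact Ideal.add_mem _ (Ideal.subset_span ⟨i, rfl⟩) h1

lemma tow_det {q : Fin k → MvPolynomial (Fin (N + k)) ℂ} (hq : Tri q) :
    (Matrix.of fun i j : Fin k => MvPolynomial.coeff (Finsupp.single (Fin.natAdd N j) 1)
      (X (Fin.natAdd N i) - q i)).det = 1 := by
  classical
  have h0 : ∀ i j : Fin k, i ≤ j → coeff (Finsupp.single (Fin.natAdd N j) 1) (q i) = 0 := by
    intro i j hij
    by_contra hne
    have h1 : Finsupp.single (Fin.natAdd N j) 1 ∈ (q i).support := by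
      rwa [mem_support_iff]
    have h2 : Fin.natAdd N j ∈ (q i).vars := by
      rw [mem_vars_iff_mem_support]
      exact ⟨_, h1, by simp⟩
    exact absurd (hq i j h2) (not_lt.2 hij)
  rw [Matrix.det_of_isLowerTriangular]
  · refine Finset.prod_eq_one fun i _ => ?_
    rw [Matrix.of_apply, coeff_sub, h0 i i le_rfl, sub_zero, coeff_X, if_pos rfl]
  · intro i j hij
    have hij' : i < j := by simpa using hij
    rw [Matrix.of_apply, coeff_sub, h0 i j hij'.le, sub_zero, coeff_X, if_neg]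
    intro h
    have h1 := (Finsupp.single_left_inj one_ne_zero).1 h
    have h2 : i = j := by
      have := congrArg Fin.val h1
      simp at this
      exact Fin.ext this
    exact absurd h2 hij'.ne

lemma tow_const {q : Fin k → MvPolynomial (Fin (N + k)) ℂ}
    (hq0 : ∀ i, constantCoeff (q i) = 0) (i : Fin k) :
    constantCoeff (X (Fin.natAdd N i) - q i : MvPolynomial (Fin (N + k)) ℂ) = 0 := by
  rw [map_sub, hq0, constantCoeff_X, sub_zero]

lemma tow_becomes (Φ : MvPolynomial (Fin (N + k)) ℂ) (q : Fin k → MvPolynomial (Fin (N + k)) ℂ)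
    (hq : Tri q) (hq0 : ∀ i, constantCoeff (q i) = 0)
    (hlin : ∀ j : Fin k, coeff (Finsupp.single (Fin.natAdd N j) 1) Φ = 0)
    (g : Fin k → MvPolynomial (Fin N) ℂ) (hg : ∀ i, g i = sb g (q i)) :
    Becomes (sb g Φ : MvPowerSeries (Fin N) ℂ) k (cayG (towG Φ q)) := by
  have h1 : Φ - psi g Φ ∈ Ideal.span (Set.range fun i : Fin k => (X (Fin.natAdd N i) - q i)) :=
    mem_of_vars fun j _ => tow_mem hq hg j
  obtain ⟨c, hc⟩ := Ideal.mem_span_range_iff_exists_fun.1 h1
  have hG0 : ∀ i : Fin k, constantCoeff (towG Φ q i.succ) = 0 := fun i => tow_const hq0 i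
  have hdet : (Matrix.of fun i j : Fin k => coeff (Finsupp.single (Fin.natAdd N j) 1)
      (towG Φ q i.succ)).det ≠ 0 := by
    have h2 : (Matrix.of fun i j : Fin k => coeff (Finsupp.single (Fin.natAdd N j) 1)
      (towG Φ q i.succ)).det = 1 := tow_det hq
    rw [h2]
    exact one_ne_zero
  have hF : (towG Φ q 0 : MvPowerSeries (Fin (N + k)) ℂ) =
      MvPowerSeries.rename (Fin.castAdd k) (sb g Φ : MvPowerSeries (Fin N) ℂ) +
      ∑ i, (c i : MvPowerSeries (Fin (N + k)) ℂ) *
        (towG Φ q i.succ : MvPowerSeries (Fin (N + k)) ℂ) := by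
    have h3 : (towG Φ q 0) = rename (Fin.castAdd k) (sb g Φ) + ∑ i, c i * towG Φ q i.succ := by
      have h4 : ∑ i, c i * towG Φ q i.succ = Φ - psi g Φ := hc
      rw [h4]
      show Φ = psi g Φ + (Φ - psi g Φ)
      ring
    conv_lhs => rw [h3]
    rw [MvPowerSeries.rename_coe]
    rw [← MvPolynomial.coeToMvPowerSeries.ringHom_apply, map_add, map_sum]
    simp only [map_mul, MvPolynomial.coeToMvPowerSeries.ringHom_apply]
  exact becomes_emb (towG Φ q) hG0 hdet (sb g Φ : MvPowerSeries (Fin N) ℂ)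
    (fun i => (c i : MvPowerSeries (Fin (N + k)) ℂ))
    (fun i => q_zero (towG Φ q) hG0 hlin hdet _ _ hF i) hF

/-! ### The theorems -/

/-- the case of a function on a smooth complete intersection -/
theorem ci_sparse (hr : 1 ≤ r) (G : Fin (k + 1) → MvPolynomial (Fin (N + k)) ℂ)
    (hG0 : ∀ i, constantCoeff (G i) = 0)
    (hdet : (Matrix.of fun i j : Fin k => coeff (Finsupp.single (Fin.natAdd N j) 1)
      (G i.succ)).det ≠ 0)
    (hlin : ∀ j : Fin k, coeff (Finsupp.single (Fin.natAdd N j) 1) (G 0) = 0)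
    (f : MvPowerSeries (Fin N) ℂ) (hf0 : f ≠ 0) (q : Fin k → MvPowerSeries (Fin (N + k)) ℂ)
    (hF : (G 0 : MvPowerSeries (Fin (N + k)) ℂ) = MvPowerSeries.rename (Fin.castAdd k) f +
      ∑ i, q i * (G i.succ : MvPowerSeries (Fin (N + k)) ℂ))
    (v : Fin r → Fin (N + (k + k)) → ℕ) (a : Fin r → ℂ)
    (h : MvPolynomial (Fin (N + (k + k))) ℂ)
    (hv : AffineIndependent ℚ (fun j => (fun i => (v j i : ℚ) : Fin (N + (k + k)) → ℚ)))
    (hv0 : ∀ j, v j ≠ 0) (ha : ∀ j, a j ≠ 0) (h1 : h = 0 ∨ Higher v h) (h2 : Above v h)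
    (hG : cayG G = sparse v a + h) (b : Polynomial ℂ) (hb : IsFormalBFunction f b)
    (R : SmoothFan (N + (k + k))) (hR : Principal v R) :
    ∃ P : Polynomial ℂ, algebraMap (Polynomial ℂ) (RatFunc ℂ)
      (b * (Polynomial.X - Polynomial.C (k : ℂ))) *
      unstab k 1 (Pool.Agent.W425.SL.topZetaSparseLocal v R) =
        algebraMap (Polynomial ℂ) (RatFunc ℂ) P := by
  have hq := q_zero G (fun i => hG0 i.succ) hlin hdet f q hF
  have hB := becomes_emb G (fun i => hG0 i.succ) hdet f q hq hF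
  have hf : MvPowerSeries.constantCoeff f = 0 := by
    have h3 := congrArg (MvPowerSeries.constantCoeff (σ := Fin (N + k)) (R := ℂ)) hF
    rw [const_coe, hG0, map_add, map_sum, MvPowerSeries.constantCoeff_rename,
      Finset.sum_eq_zero (fun i _ => by rw [map_mul, hq, zero_mul]), add_zero] at h3
    exact h3.symm
  refine sparse_strong hr v a h hv hv0 ha h1 h2 f hf0 hf ?_ b hb R hR
  rw [← hG]
  exact hB

/-- the case of a tower of compositions -/
theorem tower_sparse (hr : 1 ≤ r) (Φ : MvPolynomial (Fin (N + k)) ℂ)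
    (q : Fin k → MvPolynomial (Fin (N + k)) ℂ) (hΦ0 : constantCoeff Φ = 0) (hq : Tri q)
    (hq0 : ∀ i, constantCoeff (q i) = 0)
    (hlin : ∀ j : Fin k, coeff (Finsupp.single (Fin.natAdd N j) 1) Φ = 0)
    (g : Fin k → MvPolynomial (Fin N) ℂ) (hg : ∀ i, g i = sb g (q i))
    (f : MvPolynomial (Fin N) ℂ) (hf : f = sb g Φ) (hf0 : f ≠ 0)
    (v : Fin r → Fin (N + (k + k)) → ℕ) (a : Fin r → ℂ)
    (h : MvPolynomial (Fin (N + (k + k))) ℂ)
    (hv : AffineIndependent ℚ (fun j => (fun i => (v j i : ℚ) : Fin (N + (k + k)) → ℚ)))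
    (hv0 : ∀ j, v j ≠ 0) (ha : ∀ j, a j ≠ 0) (h1 : h = 0 ∨ Higher v h) (h2 : Above v h)
    (hG : cayG (towG Φ q) = sparse v a + h) (b : Polynomial ℂ)
    (hb : IsFormalBFunction (f : MvPowerSeries (Fin N) ℂ) b)
    (R : SmoothFan (N + (k + k))) (hR : Principal v R) :
    ∃ P : Polynomial ℂ, algebraMap (Polynomial ℂ) (RatFunc ℂ)
      (b * (Polynomial.X - Polynomial.C (k : ℂ))) *
      unstab k 1 (Pool.Agent.W425.SL.topZetaSparseLocal v R) =
        algebraMap (Polynomial ℂ) (RatFunc ℂ) P := by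
  have hgc : ∀ i, constantCoeff (g i) = 0 := by
    intro i
    induction i using Fin.strong_induction_on with
    | _ i ih =>
      have h3 : constantCoeff (sb g (q i)) = constantCoeff (q i) := by
        refine MvPolynomial.hom_congr_vars
          (f₁ := (constantCoeff : MvPolynomial (Fin N) ℂ →+* ℂ).comp
            (sb g : MvPolynomial (Fin (N + k)) ℂ →+* _))
          (f₂ := constantCoeff) (p₁ := q i) (p₂ := q i) ?_ ?_ rfl
        · ext c
          simp only [RingHom.comp_apply, RingHom.coe_coe]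
          rw [← MvPolynomial.algebraMap_eq, AlgHom.commutes, MvPolynomial.algebraMap_eq,
            constantCoeff_C, MvPolynomial.algebraMap_eq, constantCoeff_C]
        · intro l hl _
          simp only [RingHom.comp_apply, RingHom.coe_coe]
          revert hl
          refine Fin.addCases (fun l hl => ?_) (fun l hl => ?_) l
          · unfold sb
            rw [aeval_X, Fin.append_left, constantCoeff_X, constantCoeff_X]
          · unfold sb
            rw [aeval_X, Fin.append_right, constantCoeff_X, ih l (hq i l hl)]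
      rw [hg i, h3, hq0]
  have hfc : constantCoeff f = 0 := by
    rw [hf, ← hΦ0]
    refine MvPolynomial.hom_congr_vars
      (f₁ := (constantCoeff : MvPolynomial (Fin N) ℂ →+* ℂ).comp
        (sb g : MvPolynomial (Fin (N + k)) ℂ →+* _))
      (f₂ := constantCoeff) (p₁ := Φ) (p₂ := Φ) ?_ ?_ rfl
    · ext c
      simp only [RingHom.comp_apply, RingHom.coe_coe]
      rw [← MvPolynomial.algebraMap_eq, AlgHom.commutes, MvPolynomial.algebraMap_eq,
        constantCoeff_C, MvPolynomial.algebraMap_eq, constantCoeff_C]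
    · intro l _ _
      simp only [RingHom.comp_apply, RingHom.coe_coe]
      refine Fin.addCases (fun l => ?_) (fun l => ?_) l
      · unfold sb
        rw [aeval_X, Fin.append_left, constantCoeff_X, constantCoeff_X]
      · unfold sb
        rw [aeval_X, Fin.append_right, constantCoeff_X, hgc l]
  refine sparse_strong hr v a h hv hv0 ha h1 h2 (f : MvPowerSeries (Fin N) ℂ) ?_ ?_ ?_ b hb R hR
  · intro h3
    exact hf0 (MvPolynomial.coe_injective (Fin N) ℂ (by rw [h3, MvPolynomial.coe_zero]))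
  · rw [const_coe, hfc]
  · rw [← hG, hf]
    exact tow_becomes Φ q hq hq0 hlin g hg

end Pool.Agent.T6.H16.TW
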